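import Pool.Agent.Lib.MP_682a55_lc.Psi

set_option autoImplicit false

namespace Pool.Agent.Results.MP_682a55_lc.Undecidable

open Pool.Agent.Lib.MP_682a55_lc

/-- For every infinite group `H`, the `MS₀` theory of the class of rank-`3` `H`-gain-graphic
matroids is undecidable. -/
theorem result (H : Type*) [Group H] [Infinite H] : ¬ DecidableTheory (theoryRankThree H) :=
  main H

end Pool.Agent.Results.MP_682a55_lc.Undecidable
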